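import Mathlib

set_option autoImplicit false

namespace Pool.Agent.Results.MP_201e5f_co.DoubledTriangle

/-- A loopless multigraph on `V` with edge set `E` (edge `e` joins `fst e` and `snd e`), together
with a biorientation: `fwd e` says the arc `(fst e, snd e)` is present, `bwd e` says the arc
`(snd e, fst e)` is present, and at least one of them is. -/
structure Bior (V E : Type) where
  fst : E → V
  snd : E → V
  loopless : ∀ e, fst e ≠ snd e
  fwd : E → Bool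
  bwd : E → Bool
  some_arc : ∀ e, fwd e = true ∨ bwd e = true

variable {V E : Type}

/-- There is an arc `(u, v)` in `D`. -/
def Bior.Arc (D : Bior V E) (u v : V) : Prop :=
  ∃ e, (D.fwd e = true ∧ D.fst e = u ∧ D.snd e = v) ∨ (D.bwd e = true ∧ D.snd e = u ∧ D.fst e = v)

/-- Out-degree, arcs counted with multiplicity. -/
def Bior.outdeg [Fintype E] [DecidableEq V] (D : Bior V E) (v : V) : ℕ :=
  (Finset.univ.filter (fun e => D.fwd e = true ∧ D.fst e = v)).card +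
    (Finset.univ.filter (fun e => D.bwd e = true ∧ D.snd e = v)).card

/-- Every induced subdigraph has a kernel. -/
def Bior.KernelPerfect (D : Bior V E) : Prop :=
  ∀ S : Set V, ∃ U : Set V, U ⊆ S ∧ (∀ u ∈ U, ∀ v ∈ U, ¬ D.Arc u v) ∧
    ∀ v ∈ S, v ∉ U → ∃ u ∈ U, D.Arc v u

/-- `(L, C)` is a correspondence assignment: a pair `(c₁, c₂) ∈ C e` stands for
`{(fst e, c₁), (snd e, c₂)}`, and `C e` is a matching between the two lists. -/
def Bior.IsCorr (D : Bior V E) (L : V → Finset ℕ) (C : E → Finset (ℕ × ℕ)) : Prop :=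
  ∀ e, (∀ p ∈ C e, p.1 ∈ L (D.fst e) ∧ p.2 ∈ L (D.snd e)) ∧
    ∀ p ∈ C e, ∀ q ∈ C e, (p.1 = q.1 ∨ p.2 = q.2) → p = q

/-- The edge `e` is twisted (not straight). -/
def Twisted (C : E → Finset (ℕ × ℕ)) (e : E) : Prop := ¬ ∀ p ∈ C e, p.1 = p.2

/-- Every twisted edge carries no pair of equal colours. -/
def IsDerangement (C : E → Finset (ℕ × ℕ)) : Prop :=
  ∀ e, Twisted C e → ∀ c : ℕ, (c, c) ∉ C e

/-- An `(L, C)`-colouring exists. -/
def Bior.Colourable (D : Bior V E) (L : V → Finset ℕ) (C : E → Finset (ℕ × ℕ)) : Prop :=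
  ∃ φ : V → ℕ, (∀ v, φ v ∈ L v) ∧ ∀ e, (φ (D.fst e), φ (D.snd e)) ∉ C e

def D0 : Bior (Fin 3) (Fin 6) where
  fst := ![0, 1, 2, 0, 1, 2]
  snd := ![1, 2, 0, 1, 2, 0]
  loopless := by decide
  fwd := fun _ => true
  bwd := ![false, false, false, true, true, true]
  some_arc := fun _ => Or.inl rfl

def C0 (e : Fin 6) : Finset (ℕ × ℕ) :=
  if e.val < 3 then {(0, 0), (1, 1), (2, 2), (3, 3)} else {(0, 1), (1, 0), (2, 3), (3, 2)}

theorem arc_iff (u v : Fin 3) : D0.Arc u v ↔ u ≠ v := by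
  unfold Bior.Arc
  revert u v
  decide +kernel

theorem der : ∀ e : Fin 6, (¬ ∀ p ∈ C0 e, p.1 = p.2) → ∀ p ∈ C0 e, p.1 ≠ p.2 := by
  decide +kernel

theorem key : ∀ a ∈ ({0, 1, 2, 3} : Finset ℕ), ∀ b ∈ ({0, 1, 2, 3} : Finset ℕ),
    ∀ c ∈ ({0, 1, 2, 3} : Finset ℕ), ¬ ((a, b) ∉ C0 0 ∧ (b, c) ∉ C0 1 ∧ (c, a) ∉ C0 2 ∧
      (a, b) ∉ C0 3 ∧ (b, c) ∉ C0 4 ∧ (c, a) ∉ C0 5) := by
  decide +kernel

/-- A kernel-perfect biorientation and a derangement assignment with all twisted edges oriented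
both ways and `|L(v)| ≥ d⁺(v) + 1` everywhere, with no colouring. -/
theorem result : ∃ (D : Bior (Fin 3) (Fin 6)) (L : Fin 3 → Finset ℕ)
    (C : Fin 6 → Finset (ℕ × ℕ)), D.KernelPerfect ∧ D.IsCorr L C ∧ IsDerangement C ∧
      (∀ e, Twisted C e → D.fwd e = true ∧ D.bwd e = true) ∧
      (∀ v, D.outdeg v + 1 ≤ (L v).card) ∧ ¬ D.Colourable L C := by
  refine ⟨D0, fun _ => {0, 1, 2, 3}, C0, ?_, ?_, ?_, ?_, ?_, ?_⟩
  · intro S
    rcases S.eq_empty_or_nonempty with rfl | ⟨x, hx⟩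
    · exact ⟨∅, le_refl _, by simp, by simp⟩
    · refine ⟨{x}, by simpa using hx, ?_, ?_⟩
      · intro u hu v hv
        rw [arc_iff, Set.mem_singleton_iff.mp hu, Set.mem_singleton_iff.mp hv]
        simp
      · intro v _ hv
        exact ⟨x, rfl, (arc_iff v x).mpr hv⟩
  · unfold Bior.IsCorr
    decide +kernel
  · intro e he c hc
    exact der e he (c, c) hc rfl
  · unfold Twisted
    decide +kernel
  · decide +kernel
  · rintro ⟨φ, h1, h2⟩
    exact key (φ 0) (h1 0) (φ 1) (h1 1) (φ 2) (h1 2) ⟨h2 0, h2 1, h2 2, h2 3, h2 4, h2 5⟩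

end Pool.Agent.Results.MP_201e5f_co.DoubledTriangle
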